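import Pool.Agent.ASE.Stmts2

/-!
# Squad ASE, row CYW: the structure of the block of the centraliser of a reflection line
-/

open scoped BigOperators

set_option autoImplicit false

noncomputable section

namespace Pool.Agent.PP.SE.H31W

open Pool.Agent.Helper51_AWC Pool.Agent.Helper79_WRA Pool.Agent.PP Pool.Agent.PP.KF
open Pool.Agent.PP.K9 Pool.Agent.PP.K9.H97 Pool.Agent.PP.H75 Pool.Agent.PP.T3 Pool.Agent.PP.SO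
open Pool.Agent.PP.SD

attribute [local instance] Ideal.Quotient.field

/-! ## Residues of rational numbers -/

section res

variable {M : Ideal (integralClosure ℤ ℂ)} [M.IsMaximal]

theorem rat_RM {ℓ : ℕ} [hℓ : Fact ℓ.Prime] (hM : (ℓ : integralClosure ℤ ℂ) ∈ M) {q : ℚ}
    (h : (q : ℂ) ∈ RM M) : q ∈ SOR.Rl ℓ := by
  intro hd
  have e1 : (q.num : ℂ) = (q : ℂ) * ((q.den : ℤ) : ℂ) := by
    have h1 : (q : ℚ) * q.den = q.num := Rat.mul_den_eq_num q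
    have h2 := congrArg (fun r : ℚ => (r : ℂ)) h1
    push_cast at h2 ⊢
    exact h2.symm
  have e2 : rr M ((q.den : ℤ) : ℂ) = 0 := by
    rw [dvd_of_rr hℓ.out hM]
    exact_mod_cast hd
  have e3 : rr M (q.num : ℂ) = 0 := by
    rw [e1, rr_mul h (rr_int _).1, e2, mul_zero]
  rw [dvd_of_rr hℓ.out hM] at e3
  have h3 : ℓ ∣ q.num.natAbs := Int.natCast_dvd.1 e3
  have h4 := Nat.Coprime.eq_one_of_dvd
    (Nat.Coprime.coprime_dvd_left h3 q.reduced) hd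
  exact hℓ.out.one_lt.ne' h4

/-- a rational number in the local ring with residue `1` -/
theorem rat_one {ℓ : ℕ} [hℓ : Fact ℓ.Prime] (hM : (ℓ : integralClosure ℤ ℂ) ∈ M) {q : ℚ}
    (h : (q : ℂ) ∈ RM M) (h1 : rr M (q : ℂ) = 1) : ∃ r ∈ SOR.Rl ℓ, q = 1 + ℓ * r := by
  have hden : ¬ ℓ ∣ q.den := rat_RM hM h
  have e1 : (q.num : ℂ) = (q : ℂ) * ((q.den : ℤ) : ℂ) := by
    have h1 : (q : ℚ) * q.den = q.num := Rat.mul_den_eq_num q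
    have h2 := congrArg (fun r : ℚ => (r : ℂ)) h1
    push_cast at h2 ⊢
    exact h2.symm
  have e3 : rr M (q.num : ℂ) = rr M ((q.den : ℤ) : ℂ) := by
    rw [e1, rr_mul h (rr_int _).1, h1, one_mul]
  have e4 : rr M (((q.num - (q.den : ℤ) : ℤ)) : ℂ) = 0 := by
    rw [Int.cast_sub, rr_sub (rr_int _).1 (rr_int _).1, e3, sub_self]
  rw [dvd_of_rr hℓ.out hM] at e4
  obtain ⟨k, hk⟩ := e4
  have hd0 : (q.den : ℚ) ≠ 0 := Nat.cast_ne_zero.2 q.den_ne_zero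
  refine ⟨(k : ℚ) / q.den, ?_, ?_⟩
  · apply rat_RM hM
    have e5 : (((k : ℚ) / q.den : ℚ) : ℂ) = (k : ℂ) * ((q.den : ℂ))⁻¹ := by
      push_cast
      rw [div_eq_mul_inv]
    rw [e5]
    exact (RM M).mul_mem (rr_int _).1 (inv_nat_RM hℓ.out hM hden)
  · have e6 : (q.num : ℚ) = q.den + ℓ * k := by
      have h5 : q.num = q.den + ℓ * k := by linarith
      exact_mod_cast h5
    have e8 : q * q.den = q.den + ℓ * k := by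
      rw [← e6]
      exact Rat.mul_den_eq_num q
    obtain ⟨D, hD⟩ : ∃ D : ℚ, D = (q.den : ℚ) := ⟨_, rfl⟩
    rw [← hD] at e8 hd0 ⊢
    field_simp
    linarith

/-- the residue of an `ℓ`-th root of unity -/
theorem root_res {ℓ : ℕ} [hℓ : Fact ℓ.Prime] (hM : (ℓ : integralClosure ℤ ℂ) ∈ M) {ζ : ℂ}
    (hζ : ζ ^ ℓ = 1) : ζ ∈ RM M ∧ rr M ζ = 1 := by
  have hq : ℓ ≠ 0 := hℓ.out.ne_zero
  have hR : ζ ∈ RM M := by
    refine RM_of_int ⟨Polynomial.X ^ ℓ - 1, Polynomial.monic_X_pow_sub_C 1 hq, ?_⟩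
    simp [hζ]
  have hch : CharP (FF M) ℓ := (H50.fld ℓ Fact.out M hM).char
  refine ⟨hR, ?_⟩
  have h1 : (rr M ζ - 1) ^ ℓ = rr M ζ ^ ℓ - 1 ^ ℓ :=
    sub_pow_char_of_commute _ (Commute.all _ _)
  have h2 : rr M (ζ ^ ℓ) = rr M ζ ^ ℓ := map_pow (rrHom M) ⟨ζ, hR⟩ _
  rw [← h2, hζ, rr_one, one_pow, sub_self] at h1
  exact sub_eq_zero.1 ((pow_eq_zero_iff hq).1 h1)

/-- the residue of a natural number prime to `ℓ` -/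
theorem nat_ne {ℓ : ℕ} [hℓ : Fact ℓ.Prime] (hM : (ℓ : integralClosure ℤ ℂ) ∈ M) {n : ℕ}
    (hn : ¬ ℓ ∣ n) : ((n : ℕ) : FF M) ≠ 0 := by
  intro h
  have h1 := (dvd_of_rr (M := M) hℓ.out hM (n := n)).1 (by
    have := (rr_nat (M := M) n).2
    rw [h] at this
    exact_mod_cast this)
  exact hn (by exact_mod_cast h1)

end res

/-- the signs are determined -/
theorem sign_eq {ℓ : ℕ} [hℓ : Fact ℓ.Prime] (hl : ℓ ≠ 2) {a b : ℤ} (ha : a = 1 ∨ a = -1)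
    (hb : b = 1 ∨ b = -1) {K : ℂ} {q r : ℚ} (hq : q ∈ SOR.Rl ℓ) (hr : r ∈ SOR.Rl ℓ)
    (h1 : (a : ℂ) * K = ((1 + ℓ * q : ℚ) : ℂ)) (h2 : (b : ℂ) * K = ((1 + ℓ * r : ℚ) : ℂ)) :
    a = b := by
  by_contra hab
  have hba : b = -a := by
    rcases ha with ha | ha <;> rcases hb with hb | hb <;> rw [ha, hb] at hab ⊢ <;>
      first | rfl | exact absurd rfl hab | norm_num
  have h3 : ((1 + ℓ * q : ℚ) : ℂ) + ((1 + ℓ * r : ℚ) : ℂ) = 0 := by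
    rw [← h1, ← h2, hba]
    push_cast
    ring
  have h4 : (1 + ℓ * q) + (1 + ℓ * r) = 0 := by exact_mod_cast h3
  have h5 : ¬ ℓ ∣ (-(q + r)).den := (SOR.Rl ℓ).neg_mem ((SOR.Rl ℓ).add_mem hq hr)
  have h6 : (ℓ : ℚ) * (-(q + r)) = 2 := by linarith
  have h7 : (-(q + r)) * (-(q + r)).den = (-(q + r)).num := Rat.mul_den_eq_num _
  have h8 : (ℓ : ℚ) * (-(q + r)).num = 2 * (-(q + r)).den := by
    rw [← h7, ← mul_assoc, h6]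
  have h9 : (ℓ : ℤ) * (-(q + r)).num = 2 * (-(q + r)).den := by exact_mod_cast h8
  have h10 : (ℓ : ℤ) ∣ 2 * ((-(q + r)).den : ℤ) := ⟨_, h9.symm⟩
  have h11 : ℓ ∣ 2 * (-(q + r)).den := by exact_mod_cast h10
  rcases hℓ.out.dvd_mul.1 h11 with h12 | h12
  · exact hl ((Nat.prime_dvd_prime_iff_eq hℓ.out Nat.prime_two).1 h12)
  · exact h5 h12

/-! ## Numbers -/

theorem num1 {n ℓ : ℕ} (hn : 1 < n) (hl : 0 < ℓ) {e : ℤ} (he : e = 1 ∨ e = -1)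
    (h : ((1 - (n : ℂ)⁻¹) / ℓ + ((n : ℂ) * ℓ ^ 2)⁻¹) =
      e * ((0 - (n : ℂ)⁻¹) / ℓ + ((n : ℂ) * ℓ ^ 2)⁻¹)) : False := by
  have hn0 : (n : ℂ) ≠ 0 := Nat.cast_ne_zero.2 (by omega)
  have hl0 : (ℓ : ℂ) ≠ 0 := Nat.cast_ne_zero.2 (by omega)
  have h1 : ((n : ℂ) - 1) * ℓ + 1 = e * (1 - ℓ) := by
    have h2 := congrArg (fun z => z * ((n : ℂ) * ℓ ^ 2)) h
    have e1 : ((1 - (n : ℂ)⁻¹) / ℓ + ((n : ℂ) * ℓ ^ 2)⁻¹) * ((n : ℂ) * ℓ ^ 2) =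
        ((n : ℂ) - 1) * ℓ + 1 := by
      field_simp
    have e2 : e * ((0 - (n : ℂ)⁻¹) / ℓ + ((n : ℂ) * ℓ ^ 2)⁻¹) * ((n : ℂ) * ℓ ^ 2) =
        e * (1 - ℓ) := by
      field_simp
      ring
    rw [← e1, ← e2]
    exact h2
  have h2 : ((n : ℤ) - 1) * ℓ + 1 = e * (1 - ℓ) := by exact_mod_cast h1
  have hn' : (1 : ℤ) < n := by exact_mod_cast hn
  have hl' : (0 : ℤ) < ℓ := by exact_mod_cast hl
  rcases he with rfl | rfl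
  · nlinarith
  · nlinarith

theorem num2 {n ℓ : ℕ} (hn : 1 < n) (hl : 0 < ℓ)
    (h : ((1 - (n : ℂ)⁻¹) / ℓ + ((n : ℂ) * ℓ ^ 2)⁻¹) = n / (ℓ : ℂ) ^ 2) : n = ℓ - 1 := by
  have hn0 : (n : ℂ) ≠ 0 := Nat.cast_ne_zero.2 (by omega)
  have hl0 : (ℓ : ℂ) ≠ 0 := Nat.cast_ne_zero.2 (by omega)
  have h1 : ((n : ℂ) - 1) * ℓ + 1 = n ^ 2 := by
    have h2 := congrArg (fun z => z * ((n : ℂ) * ℓ ^ 2)) h
    have e1 : ((1 - (n : ℂ)⁻¹) / ℓ + ((n : ℂ) * ℓ ^ 2)⁻¹) * ((n : ℂ) * ℓ ^ 2) =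
        ((n : ℂ) - 1) * ℓ + 1 := by
      field_simp
    have e2 : (n : ℂ) / (ℓ : ℂ) ^ 2 * ((n : ℂ) * ℓ ^ 2) = n ^ 2 := by
      field_simp
    rw [← e1, ← e2]
    exact h2
  have h2 : ((n : ℤ) - 1) * ℓ + 1 = (n : ℤ) ^ 2 := by exact_mod_cast h1
  have h3 : ((n : ℤ) - 1) * ((n : ℤ) + 1 - ℓ) = 0 := by linear_combination -h2
  have hn' : (1 : ℤ) < n := by exact_mod_cast hn
  have h4 := (mul_eq_zero.1 h3).resolve_left (by omega)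
  omega

theorem num3 {n ℓ : ℕ} (hn : 1 < n) (hl : 0 < ℓ) {e : ℤ} (he : e = 1 ∨ e = -1)
    (h : (e : ℂ) / (ℓ : ℂ) ^ 2 = n / (ℓ : ℂ) ^ 2) : False := by
  have hl0 : (ℓ : ℂ) ^ 2 ≠ 0 := pow_ne_zero _ (Nat.cast_ne_zero.2 (by omega))
  have h1 : (e : ℂ) = n := (div_left_inj' hl0).1 h
  have h2 : e = (n : ℤ) := by exact_mod_cast h1
  have hn' : (1 : ℤ) < n := by exact_mod_cast hn
  omega

/-! ## Restrictions to the regular elements -/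

section blk

variable {V₀ G : Type} [CommGroup V₀] [Group G] {M : Ideal (integralClosure ℤ ℂ)}
  [M.IsMaximal] {ℓ : ℕ} {B : Bk (FF M) V₀ G} {W : Subgroup V₀} {E₀ : Subgroup (MulAut V₀)}

theorem rq_symm {χ ψ : G → ℂ} (h : rq ℓ B W χ ψ) : rq ℓ B W ψ χ := fun g hg h1 => (h g hg h1).symm

theorem rq_trans {χ ψ θ : G → ℂ} (h : rq ℓ B W χ ψ) (h' : rq ℓ B W ψ θ) : rq ℓ B W χ θ :=
  fun g hg h1 => (h g hg h1).trans (h' g hg h1)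

theorem rq_one {χ ψ : G → ℂ} (h : rq ℓ B W χ ψ) : χ 1 = ψ 1 := by
  refine h 1 (B.C W).one_mem ?_
  unfold Reg
  rw [orderOf_one]
  exact Nat.coprime_one_left ℓ

theorem rip_congr {χ ψ χ' ψ' : G → ℂ} (h : rq ℓ B W χ χ') (h' : rq ℓ B W ψ ψ') :
    rip ℓ B W χ ψ = rip ℓ B W χ' ψ' := by
  unfold rip
  rw [finsum_mem_congr rfl fun s hs => by rw [h s hs.1 hs.2, h' s hs.1 hs.2]]

theorem rip_smul {χ ψ : G → ℂ} (c : ℂ)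
    (h : ∀ g ∈ B.C W, Reg ℓ g → χ g = c * ψ g) (θ : G → ℂ) :
    rip ℓ B W χ θ = c * rip ℓ B W ψ θ := by
  unfold rip
  have h1 : ∑ᶠ s ∈ {s : G | s ∈ B.C W ∧ Reg ℓ s}, χ s * starRingEnd ℂ (θ s) =
      c * ∑ᶠ s ∈ {s : G | s ∈ B.C W ∧ Reg ℓ s}, ψ s * starRingEnd ℂ (θ s) := by
    rw [mul_finsum_mem]
    exact finsum_mem_congr rfl fun s hs => by rw [h s hs.1 hs.2, mul_assoc]
  rw [h1]
  ring

theorem iv_ch {ν : V₀ → ℂ} {χ : G → ℂ} (h : χ ∈ Iv B W ν) : χ ∈ Ch B W := h.1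

theorem ch_one {χ : G → ℂ} (h : χ ∈ Ch B W) : ∃ d : ℕ, 0 < d ∧ χ 1 = d :=
  irr_one (G := B.C W) h.2.1

theorem lv_congr {ν : V₀ → ℂ} {N N' : Set (G → ℂ)} {e e' : (G → ℂ) → ℤ}
    {O O' : (G → ℂ) → Set (V₀ → ℂ)} (h : Lv E₀ B W ν N e O)
    (hN : ∀ χ ∈ Iv B W ν, (χ ∈ N ↔ χ ∈ N')) (he : ∀ χ ∈ Iv B W ν, e' χ = e χ)
    (hO : ∀ χ ∈ Iv B W ν, O' χ = O χ) : Lv E₀ B W ν N' e' O' where
  sg χ hχ := by rw [he χ hχ]; exact h.sg χ hχ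
  vN χ hχ h1 := by rw [he χ hχ]; exact h.vN χ hχ ((hN χ hχ).2 h1)
  vX χ hχ h1 := by
    rw [he χ hχ, hO χ hχ]
    exact h.vX χ hχ fun h2 => h1 ((hN χ hχ).1 h2)
  cN := by
    rw [← h.cN]
    refine congrArg _ (Set.ext fun χ => ?_)
    exact and_congr_right fun hχ => (hN χ hχ).symm
  bX s hs hs1 := by
    obtain ⟨χ, ⟨h1, h2, h3⟩, hu⟩ := h.bX s hs hs1
    refine ⟨χ, ⟨h1, fun h4 => h2 ((hN χ h1).2 h4), ?_⟩, ?_⟩
    · rw [hO χ h1]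
      exact h3
    · rintro ψ ⟨h4, h5, h6⟩
      refine hu ψ ⟨h4, fun h7 => h5 ((hN ψ h4).1 h7), ?_⟩
      rw [← hO ψ h4]
      exact h6

end blk

/-! ## The main part -/

section main

variable (gea : GeaStmt) (gec : GecStmt) (vxm : VxmStmt) (str : StrStmt) (xir : XirStmt)
  (rpv : RpvStmt) (mat : MatStmt)
  {ℓ : ℕ} [hℓ : Fact ℓ.Prime] {M : Ideal (integralClosure ℤ ℂ)} [M.IsMaximal]
  (hM : (ℓ : integralClosure ℤ ℂ) ∈ M) (hl : ℓ ≠ 2) {V₀ G : Type} [CommGroup V₀] [Finite V₀]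
  [Group G] [Finite G] {E₀ : Subgroup (MulAut V₀)} (hF : Fq ℓ V₀ E₀) {B : Bk (FF M) V₀ G}
  (hB : Sd ℓ M E₀ B) {W : Subgroup V₀} (hW : W ∈ RL ℓ E₀)

include hM hl hF hB hW

include rpv in
/-- step (0) -/
theorem uniq {ν : V₀ → ℂ} (hν : ν ∈ lk (kW E₀ W)) {N : Set (G → ℂ)} {e : (G → ℂ) → ℤ}
    {O : (G → ℂ) → Set (V₀ → ℂ)} (h : Lv E₀ B W ν N e O) {χ ψ : G → ℂ} (hχ : χ ∈ Iv B W ν)
    (hψ : ψ ∈ Iv B W ν) (hr : rq ℓ B W χ ψ) (hN : χ ∈ N) : χ = ψ := by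
  by_contra hne
  have hn : 1 < nS E₀ W := hW.2
  have hl0 : 0 < ℓ := hℓ.out.pos
  have key := rpv ℓ M hM hl V₀ G E₀ hF B hB W hW ν hν N e O h
  have e1 : (e χ : ℂ) * e χ = 1 := by
    rcases h.sg χ hχ with h1 | h1 <;> rw [h1] <;> norm_num
  have e2 : (e ψ : ℂ) * e ψ = 1 := by
    rcases h.sg ψ hψ with h1 | h1 <;> rw [h1] <;> norm_num
  have e3 : e χ * e ψ = 1 ∨ e χ * e ψ = -1 := by
    rcases h.sg χ hχ with h1 | h1 <;> rcases h.sg ψ hψ with h2 | h2 <;> rw [h1, h2] <;> norm_num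
  by_cases hψN : ψ ∈ N
  · have h1 := (key χ hχ ψ hψ).1 hN hψN
    have h2 := (key χ hχ χ hχ).1 hN hN
    rw [if_neg hne] at h1
    rw [if_pos rfl, e1, one_mul] at h2
    have h3 : rip ℓ B W χ χ = rip ℓ B W χ ψ := rip_congr (fun _ _ _ => rfl) hr
    refine num1 hn hl0 e3 ?_
    rw [← h2, h3, h1]
    push_cast
    ring
  · have h1 := ((key χ hχ ψ hψ).2.1 hN hψN).1
    have h2 := (key ψ hψ ψ hψ).2.2 hψN hψN
    rw [e2, one_mul] at h2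
    have h3 : rip ℓ B W χ ψ = rip ℓ B W ψ ψ := rip_congr hr fun _ _ _ => rfl
    refine num3 hn hl0 e3 ?_
    rw [← h2, ← h3, h1]
    push_cast
    ring

omit hM hl hB in
include gea gec in
/-- the central character is determined -/
theorem nu_uniq {ν ν' : V₀ → ℂ} (hν : ν ∈ lk (kW E₀ W)) (hν' : ν' ∈ lk (kW E₀ W)) {χ : G → ℂ}
    (h : χ ∈ Iv B W ν) (h' : χ ∈ Iv B W ν') : ν = ν' := by
  obtain ⟨-, ga, -⟩ := gea ℓ V₀ E₀ hF W hW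
  obtain ⟨-, -, -, -, -, -, gc, -⟩ := gec ℓ V₀ E₀ hF W hW
  funext v
  rw [← (gc ν hν v).1, ← (gc ν' hν' v).1, ← h.2 _ (ga v).1, ← h'.2 _ (ga v).1]

omit hM hl hF hB hW [Finite V₀] [Finite G] in
theorem one_lk (A : Subgroup V₀) : (fun _ : V₀ => (1 : ℂ)) ∈ lk A :=
  ⟨⟨rfl, fun _ _ => (mul_one _).symm⟩, fun _ _ => rfl⟩

include str in
theorem iv_card {ν : V₀ → ℂ} (hν : ν ∈ lk (kW E₀ W)) :
    (Iv B W ν).ncard = (Iv B W (fun _ => 1)).ncard ∧ (Iv B W ν).Finite ∧ (Iv B W ν).Nonempty := by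
  have hn : 1 < nS E₀ W := hW.2
  have h1 := (str ℓ M hM hl V₀ G E₀ hF B hB W hW ν hν).1
  have h2 := (str ℓ M hM hl V₀ G E₀ hF B hB W hW _ (one_lk (kW E₀ W))).1
  have h3 : (Iv B W ν).ncard ≠ 0 := by
    intro h0
    rw [h0, mul_zero] at h1
    have : 0 < nS E₀ W ^ 2 := by positivity
    omega
  refine ⟨?_, Set.finite_of_ncard_ne_zero h3, Set.nonempty_of_ncard_ne_zero h3⟩
  exact Nat.eq_of_mul_eq_mul_left (by omega : 0 < nS E₀ W) (h1.trans h2.symm)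

include gea gec str rpv mat in
/-- step (1) for one central character -/
theorem lv_ex {xc : G → ℂ} (hxc : nS E₀ W = ℓ - 1 → xc ∈ Iv B W (fun _ => 1)) {ν : V₀ → ℂ}
    (hν : ν ∈ lk (kW E₀ W)) : ∃ (e : (G → ℂ) → ℤ) (O : (G → ℂ) → Set (V₀ → ℂ)),
      Lv E₀ B W ν (Nn ℓ E₀ B W xc) e O := by
  obtain ⟨-, s1, s2⟩ := str ℓ M hM hl V₀ G E₀ hF B hB W hW ν hν
  by_cases hn : nS E₀ W = ℓ - 1
  · -- the restrictions are different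
    obtain ⟨c1, c2, χ₁, c3⟩ := iv_card str hM hl hF hB hW hν
    obtain ⟨e₁, O₁, hL₁, -⟩ := s2 hn χ₁ c3
    have hinj : ∀ χ ∈ Iv B W ν, ∀ ψ ∈ Iv B W ν, rq ℓ B W χ ψ → χ = ψ := by
      intro χ hχ ψ hψ hr
      by_cases h1 : χ = χ₁
      · by_cases h2 : ψ = χ₁
        · rw [h1, h2]
        · exact (uniq rpv hM hl hF hB hW hν hL₁ hψ hχ (rq_symm hr) h2).symm
      · exact uniq rpv hM hl hF hB hW hν hL₁ hχ hψ hr h1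
    choose! f hf1 hf2 using fun χ (hχ : χ ∈ Ch B W) => mat ℓ M hM hl V₀ G E₀ hF B hB W hW χ hχ
    have hfi : Set.InjOn f (Iv B W ν) := fun χ hχ ψ hψ h => hinj χ hχ ψ hψ
      (rq_trans (hf2 χ hχ.1) (by rw [h]; exact rq_symm (hf2 ψ hψ.1)))
    have hsub : f '' Iv B W ν ⊆ Iv B W (fun _ => 1) := by
      rintro _ ⟨χ, hχ, rfl⟩
      exact hf1 χ hχ.1
    have himg : f '' Iv B W ν = Iv B W (fun _ => 1) := by
      refine Set.eq_of_subset_of_ncard_le hsub ?_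
        (iv_card str hM hl hF hB hW (one_lk (kW E₀ W))).2.1
      rw [hfi.ncard_image, c1]
    have hx := hxc hn
    rw [← himg] at hx
    obtain ⟨χ₀, hχ₀, hx⟩ := hx
    have hr0 : rq ℓ B W χ₀ xc := by
      rw [← hx]
      exact hf2 χ₀ hχ₀.1
    obtain ⟨e, O, hL, hc⟩ := s2 hn χ₀ hχ₀
    refine ⟨e, O, lv_congr hL (fun χ hχ => ?_) (fun _ _ => rfl) fun _ _ => rfl⟩
    constructor
    · intro h1
      exact ⟨hχ.1, hc χ hχ, fun _ h2 => h1 (hinj χ hχ χ₀ hχ₀ (rq_trans h2 (rq_symm hr0)))⟩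
    · rintro ⟨-, -, h1⟩ h2
      exact h1 hn (by rw [h2]; exact hr0)
  · obtain ⟨e, O, hL⟩ := s1 hn
    refine ⟨e, O, lv_congr hL (fun χ hχ => ?_) (fun _ _ => rfl) fun _ _ => rfl⟩
    constructor
    · intro h1
      exact ⟨hχ.1, h1, fun h2 => absurd h2 hn⟩
    · rintro ⟨-, h1, -⟩
      exact h1

include gea gec str rpv mat in
/-- step (1) -/
theorem lv_all {xc : G → ℂ} (hxc : nS E₀ W = ℓ - 1 → xc ∈ Iv B W (fun _ => 1)) :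
    ∃ (e : (G → ℂ) → ℤ) (O : (G → ℂ) → Set (V₀ → ℂ)),
      ∀ ν ∈ lk (kW E₀ W), Lv E₀ B W ν (Nn ℓ E₀ B W xc) e O := by
  classical
  choose! e O h using fun ν (hν : ν ∈ lk (kW E₀ W)) =>
    lv_ex gea gec str rpv mat hM hl hF hB hW hxc hν
  have hc : ∀ χ : G → ℂ, ∃ ν : V₀ → ℂ, ∀ ν' ∈ lk (kW E₀ W), χ ∈ Iv B W ν' → ν' = ν := by
    intro χ
    by_cases h1 : ∃ ν ∈ lk (kW E₀ W), χ ∈ Iv B W ν
    · obtain ⟨ν, h2, h3⟩ := h1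
      exact ⟨ν, fun ν' h4 h5 => nu_uniq gea gec hF hW h4 h2 h5 h3⟩
    · exact ⟨fun _ => 1, fun ν' h4 h5 => absurd ⟨ν', h4, h5⟩ h1⟩
  choose c hc using hc
  refine ⟨fun χ => e (c χ) χ, fun χ => O (c χ) χ, fun ν hν => lv_congr (h ν hν)
    (fun _ _ => Iff.rfl) (fun χ hχ => ?_) fun χ hχ => ?_⟩
  · show e (c χ) χ = e ν χ
    rw [← hc χ ν hν hχ]
  · show O (c χ) χ = O ν χ
    rw [← hc χ ν hν hχ]

omit hM hl hB in
include gea in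
/-- an element of `k` different from `1` -/
theorem ex_y : ∃ y ∈ kW E₀ W, y ≠ 1 ∧ y ∉ W := by
  obtain ⟨⟨-, -, -, g1, g2, -⟩, -⟩ := gea ℓ V₀ E₀ hF W hW
  have h1 : 1 < Nat.card (kW E₀ W) := by
    rw [g1]
    exact hℓ.out.one_lt
  have : Nontrivial (kW E₀ W) := Finite.one_lt_card_iff_nontrivial.1 h1
  obtain ⟨⟨y, hy⟩, hy1⟩ := exists_ne (1 : kW E₀ W)
  have hy2 : y ≠ 1 := fun h => hy1 (Subtype.ext h)
  refine ⟨y, hy, hy2, fun h => hy2 ?_⟩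
  have h3 : y ∈ W ⊓ kW E₀ W := ⟨h, hy⟩
  rw [g2] at h3
  exact Subgroup.mem_bot.1 h3

omit hl hB in
include gec in
/-- the residue of the sum over an orbit -/
theorem orb_res {s : V₀ → ℂ} (hs : s ∈ lk W) (hs1 : s ≠ fun _ => 1) (y : V₀) :
    (∑ᶠ t ∈ orb E₀ W s, t y) ∈ RM M ∧
      rr M (∑ᶠ t ∈ orb E₀ W s, t y) = ((nS E₀ W : ℕ) : FF M) := by
  obtain ⟨-, -, g1, -, -, -, -, -, g2, g3, -⟩ := gec ℓ V₀ E₀ hF W hW
  have h1 : orb E₀ W s ⊆ lk W := by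
    rintro _ ⟨τ, hτ, rfl⟩
    exact (g2 s hs τ hτ).1
  have hfin : (orb E₀ W s).Finite := g1.subset h1
  have h2 : ∀ t ∈ orb E₀ W s, t y ∈ RM M ∧ rr M (t y) = 1 := by
    intro t ht
    obtain ⟨⟨h3, h4⟩, -⟩ := h1 ht
    have h5 : ∀ j : ℕ, t (y ^ j) = t y ^ j := by
      intro j
      induction j with
      | zero => rw [pow_zero, pow_zero, h3]
      | succ j ih => rw [pow_succ, pow_succ, h4, ih]
    refine root_res hM ?_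
    rw [← h5, hF.ex, h3]
  rw [finsum_mem_eq_finite_toFinset_sum _ hfin]
  have h3 : ∀ t ∈ hfin.toFinset, t y ∈ RM M := fun t ht => (h2 t (hfin.mem_toFinset.1 ht)).1
  refine ⟨Subring.sum_mem _ h3, ?_⟩
  rw [rr_sum _ _ h3, Finset.sum_congr rfl fun t ht => (h2 t (hfin.mem_toFinset.1 ht)).2,
    Finset.sum_const, nsmul_eq_mul, mul_one, ← Set.ncard_eq_toFinset_card _ hfin, (g3 s hs hs1).1]

include gea vxm in
/-- `un` -/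
theorem un {ν : V₀ → ℂ} {N : Set (G → ℂ)} {e : (G → ℂ) → ℤ} {O : (G → ℂ) → Set (V₀ → ℂ)}
    (h : Lv E₀ B W ν N e O) {χ : G → ℂ} (hχ : χ ∈ Iv B W ν) (hN : χ ∈ N) :
    ∃ q ∈ SOR.Rl ℓ, (e χ : ℂ) * Nat.card (B.C W) * B.D ⊤ /
      (nS E₀ W * Nat.card (B.C ⊤) * χ 1) = ((1 + ℓ * q : ℚ) : ℂ) := by
  obtain ⟨⟨-, g1, -⟩, -⟩ := gea ℓ V₀ E₀ hF W hW
  obtain ⟨y, hy, hy1, hyW⟩ := ex_y gea hF hW
  obtain ⟨h1, h2, h3, h4⟩ := (vxm ℓ M hM hl V₀ G E₀ hF B hB W hW χ hχ.1).2.2 y hyW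
  rw [h.vN χ hχ hN y hy hy1] at h1
  obtain ⟨d, hd, hd1⟩ := ch_one hχ.1
  have e1 : (e χ : ℂ) * Nat.card (B.C W) * B.D ⊤ / (nS E₀ W * Nat.card (B.C ⊤) * χ 1) =
      cv (fc B W y) χ * ((nS E₀ W : ℕ) : ℂ)⁻¹ := by
    rw [h1]
    rw [div_eq_mul_inv, div_eq_mul_inv, mul_inv, mul_inv, mul_inv]
    ring
  obtain ⟨r, hr⟩ : ∃ r : ℚ, r = (e χ : ℚ) * Nat.card (B.C W) * B.D ⊤ /
      (nS E₀ W * Nat.card (B.C ⊤) * d) := ⟨_, rfl⟩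
  have e2 : (e χ : ℂ) * Nat.card (B.C W) * B.D ⊤ / (nS E₀ W * Nat.card (B.C ⊤) * χ 1) =
      (r : ℂ) := by
    rw [hr, hd1]
    push_cast
    rfl
  have h5 := inv_nat_RM (M := M) hℓ.out hM g1
  have h6 := nat_ne (M := M) hM g1
  have h7 : rr M ((nS E₀ W : ℕ) : ℂ) = ((nS E₀ W : ℕ) : FF M) := (rr_nat (M := M) _).2
  have h8 : (r : ℂ) ∈ RM M := by
    rw [← e2, e1]
    exact (RM M).mul_mem h2 h5
  have h9 : rr M (r : ℂ) = 1 := by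
    rw [← e2, e1, rr_mul h2 h5, h3, rr_inv (rr_nat (M := M) _).1 (by rw [h7]; exact h6), h7,
      mul_inv_cancel₀ h6]
  obtain ⟨q, hq, hq1⟩ := rat_one hM h8 h9
  exact ⟨q, hq, by rw [e2, hq1]⟩

include gea gec vxm in
/-- `ux`, for one character -/
theorem ux {ν : V₀ → ℂ} {N : Set (G → ℂ)} {e : (G → ℂ) → ℤ} {O : (G → ℂ) → Set (V₀ → ℂ)}
    (h : Lv E₀ B W ν N e O) {χ : G → ℂ} (hχ : χ ∈ Iv B W ν) (hN : χ ∉ N) :
    ∃ q ∈ SOR.Rl ℓ, (e χ : ℂ) * Nat.card (B.C W) * B.D ⊤ /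
      (Nat.card (B.C ⊤) * χ 1) = ((1 + ℓ * q : ℚ) : ℂ) := by
  obtain ⟨⟨-, g1, -⟩, -⟩ := gea ℓ V₀ E₀ hF W hW
  obtain ⟨y, hy, hy1, hyW⟩ := ex_y gea hF hW
  obtain ⟨h1, h2, h3, h4⟩ := (vxm ℓ M hM hl V₀ G E₀ hF B hB W hW χ hχ.1).2.2 y hyW
  obtain ⟨⟨s, hs, hs1, hO⟩, hv⟩ := h.vX χ hχ hN
  obtain ⟨o1, o2⟩ := orb_res gec hM hF hW hs hs1 y
  rw [← hO] at o1 o2
  rw [hv y hy hy1] at h1
  obtain ⟨d, hd, hd1⟩ := ch_one hχ.1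
  have h6 := nat_ne (M := M) hM g1
  have o3 : rr M (∑ᶠ t ∈ O χ, t y) ≠ 0 := by
    rw [o2]
    exact h6
  obtain ⟨o4, o5⟩ := inv_RM o1 o3
  have e1 : (e χ : ℂ) * Nat.card (B.C W) * B.D ⊤ / (Nat.card (B.C ⊤) * χ 1) =
      cv (fc B W y) χ * (∑ᶠ t ∈ O χ, t y)⁻¹ := by
    rw [h1]
    field_simp
  obtain ⟨r, hr⟩ : ∃ r : ℚ, r = (e χ : ℚ) * Nat.card (B.C W) * B.D ⊤ /
      (Nat.card (B.C ⊤) * d) := ⟨_, rfl⟩
  have e2 : (e χ : ℂ) * Nat.card (B.C W) * B.D ⊤ / (Nat.card (B.C ⊤) * χ 1) = (r : ℂ) := by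
    rw [hr, hd1]
    push_cast
    rfl
  have h8 : (r : ℂ) ∈ RM M := by
    rw [← e2, e1]
    exact (RM M).mul_mem h2 o4
  have h9 : rr M (r : ℂ) = 1 := by
    rw [← e2, e1, rr_mul h2 o4, h3, rr_inv o1 o3, o2, mul_inv_cancel₀ h6]
  obtain ⟨q, hq, hq1⟩ := rat_one hM h8 h9
  exact ⟨q, hq, by rw [e2, hq1]⟩

include gea gec vxm str xir rpv mat in
theorem assemble {N : Set (G → ℂ)} {e : (G → ℂ) → ℤ} {O : (G → ℂ) → Set (V₀ → ℂ)}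
    (hL : ∀ ν ∈ lk (kW E₀ W), Lv E₀ B W ν N e O)
    (hN : nS E₀ W = ℓ - 1 → ∀ χ ∈ Ch B W, ∀ ψ ∈ Ch B W, rq ℓ B W χ ψ → χ ∈ N → ψ ∈ N) :
    Cy ℓ E₀ B W N e O := by
  have hn : 1 < nS E₀ W := hW.2
  have hl0 : 0 < ℓ := hℓ.out.pos
  have hex : ∀ χ ∈ Ch B W, ∃ ν ∈ lk (kW E₀ W), χ ∈ Iv B W ν := fun χ hχ =>
    (vxm ℓ M hM hl V₀ G E₀ hF B hB W hW χ hχ).2.1.2.2.2.1
  have hsg : ∀ χ ∈ Ch B W, e χ = 1 ∨ e χ = -1 := by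
    intro χ hχ
    obtain ⟨ν, h1, h2⟩ := hex χ hχ
    exact (hL ν h1).sg χ h2
  have hsq : ∀ χ ∈ Ch B W, (e χ : ℂ) * e χ = 1 := by
    intro χ hχ
    rcases hsg χ hχ with h1 | h1 <;> rw [h1] <;> norm_num
  have key := fun ν (hν : ν ∈ lk (kW E₀ W)) =>
    rpv ℓ M hM hl V₀ G E₀ hF B hB W hW ν hν N e O (hL ν hν)
  have hun : ∀ ν ∈ lk (kW E₀ W), ∀ χ ∈ Iv B W ν, ∀ ψ ∈ Iv B W ν, rq ℓ B W χ ψ → χ ∈ N →
      χ = ψ := fun ν hν χ hχ ψ hψ => uniq rpv hM hl hF hB hW hν (hL ν hν) hχ hψ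
  -- (3), (4): the type is determined by the restriction
  have seN : ∀ χ ∈ Ch B W, ∀ ψ ∈ Ch B W, rq ℓ B W χ ψ → χ ∈ N → ψ ∈ N := by
    by_cases hn1 : nS E₀ W = ℓ - 1
    · exact hN hn1
    · intro χ hχ ψ hψ hr h1
      by_contra h2
      obtain ⟨ν, hν, h3⟩ := hex χ hχ
      obtain ⟨μ, hμ, h4⟩ := hex ψ hψ
      have h5 := (key ν hν χ h3 χ h3).1 h1 h1
      have h6 := (key μ hμ ψ h4 ψ h4).2.2 h2 h2
      rw [if_pos rfl, hsq χ hχ, one_mul] at h5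
      rw [hsq ψ hψ, one_mul] at h6
      refine hn1 (num2 hn hl0 ?_)
      rw [← h5, ← h6]
      exact rip_congr hr hr
  have seE : ∀ χ ∈ Ch B W, ∀ ψ ∈ Ch B W, rq ℓ B W χ ψ → e χ = e ψ := by
    intro χ hχ ψ hψ hr
    obtain ⟨ν, hν, h3⟩ := hex χ hχ
    obtain ⟨μ, hμ, h4⟩ := hex ψ hψ
    by_cases h1 : χ ∈ N
    · have h2 := seN χ hχ ψ hψ hr h1
      obtain ⟨q, hq, hq1⟩ := un gea vxm hM hl hF hB hW (hL ν hν) h3 h1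
      obtain ⟨r, hr1, hr2⟩ := un gea vxm hM hl hF hB hW (hL μ hμ) h4 h2
      rw [mul_assoc, mul_div_assoc] at hq1 hr2
      rw [← rq_one hr] at hr2
      exact sign_eq hl (hsg χ hχ) (hsg ψ hψ) hq hr1 hq1 hr2
    · have h2 : ψ ∉ N := fun h2 => h1 (seN ψ hψ χ hχ (rq_symm hr) h2)
      obtain ⟨q, hq, hq1⟩ := ux gea gec vxm hM hl hF hB hW (hL ν hν) h3 h1
      obtain ⟨r, hr1, hr2⟩ := ux gea gec vxm hM hl hF hB hW (hL μ hμ) h4 h2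
      rw [mul_assoc, mul_div_assoc] at hq1 hr2
      rw [← rq_one hr] at hr2
      exact sign_eq hl (hsg χ hχ) (hsg ψ hψ) hq hr1 hq1 hr2
  -- the partners
  have par : ∀ ν ∈ lk (kW E₀ W), ∀ χ ∈ Ch B W, χ ∈ N →
      ∃ ψ, (ψ ∈ Iv B W ν ∧ ψ ∈ N) ∧ rq ℓ B W ψ χ := by
    intro ν hν χ hχ hχN
    choose! f hf1 hf2 using fun χ (hχ : χ ∈ Ch B W) => mat ℓ M hM hl V₀ G E₀ hF B hB W hW χ hχ
    have h1 := one_lk (kW E₀ W)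
    have hfi : Set.InjOn f {χ | χ ∈ Iv B W ν ∧ χ ∈ N} := fun χ hχ ψ hψ h =>
      hun ν hν χ hχ.1 ψ hψ.1
        (rq_trans (hf2 χ hχ.1.1) (by rw [h]; exact rq_symm (hf2 ψ hψ.1.1))) hχ.2
    have hsub : f '' {χ | χ ∈ Iv B W ν ∧ χ ∈ N} ⊆ {χ | χ ∈ Iv B W (fun _ => 1) ∧ χ ∈ N} := by
      rintro _ ⟨ψ, hψ, rfl⟩
      exact ⟨hf1 ψ hψ.1.1, seN ψ hψ.1.1 _ (hf1 ψ hψ.1.1).1 (hf2 ψ hψ.1.1) hψ.2⟩
    have himg : f '' {χ | χ ∈ Iv B W ν ∧ χ ∈ N} = {χ | χ ∈ Iv B W (fun _ => 1) ∧ χ ∈ N} := by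
      refine Set.eq_of_subset_of_ncard_le hsub ?_
        ((iv_card str hM hl hF hB hW h1).2.1.subset fun χ h => h.1)
      rw [hfi.ncard_image, (hL ν hν).cN, (hL _ h1).cN]
    have h2 : f χ ∈ {χ | χ ∈ Iv B W (fun _ => 1) ∧ χ ∈ N} :=
      ⟨hf1 χ hχ, seN χ hχ _ (hf1 χ hχ).1 (hf2 χ hχ) hχN⟩
    rw [← himg] at h2
    obtain ⟨ψ, hψ, h3⟩ := h2
    exact ⟨ψ, hψ, rq_trans (hf2 ψ hψ.1.1) (by rw [h3]; exact rq_symm (hf2 χ hχ))⟩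
  have xi : ∀ ν ∈ lk (kW E₀ W), ∀ ψ ∈ Ch B W, ψ ∉ N → ∀ g ∈ B.C W, Reg ℓ g →
      ∑ᶠ χ ∈ {χ | χ ∈ Iv B W ν ∧ χ ∈ N}, (e χ : ℂ) * χ g = e ψ * ψ g := by
    intro ν hν ψ hψ hψN g hg hg1
    obtain ⟨μ, hμ, h4⟩ := hex ψ hψ
    rw [← xir ℓ M hM hl V₀ G E₀ hF B hB W hW μ hμ N e O (hL μ hμ) ψ h4 hψN g hg hg1]
    choose! f hf1 hf2 using par μ hμ
    refine finsum_mem_eq_of_bijOn f ⟨fun χ hχ => hf1 χ hχ.1.1 hχ.2, ?_, ?_⟩ ?_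
    · intro χ hχ θ hθ h
      refine hun ν hν χ hχ.1 θ hθ.1 (rq_trans (rq_symm (hf2 χ hχ.1.1 hχ.2)) ?_) hχ.2
      rw [h]
      exact hf2 θ hθ.1.1 hθ.2
    · intro θ hθ
      obtain ⟨χ, hχ, h5⟩ := par ν hν θ hθ.1.1 hθ.2
      refine ⟨χ, hχ, ?_⟩
      refine hun μ hμ _ (hf1 χ hχ.1.1 hχ.2).1 θ hθ.1 ?_ (hf1 χ hχ.1.1 hχ.2).2
      exact rq_trans (hf2 χ hχ.1.1 hχ.2) h5
    · intro χ hχ
      have h5 := hf2 χ hχ.1.1 hχ.2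
      rw [seE _ (hf1 χ hχ.1.1 hχ.2).1.1 χ hχ.1.1 h5, h5 g hg hg1]
  have hX : ∀ χ ∈ Ch B W, ∀ ψ ∈ Ch B W, χ ∉ N → ψ ∉ N → ∀ g ∈ B.C W, Reg ℓ g →
      (e χ : ℂ) * χ g = e ψ * ψ g := by
    intro χ hχ ψ hψ h1 h2 g hg hg1
    rw [← xi _ (one_lk _) χ hχ h1 g hg hg1, ← xi _ (one_lk _) ψ hψ h2 g hg hg1]
  exact
    { lv := hL
      xi := xi
      mt := by
        intro ν hν χ hχ h1
        obtain ⟨ψ, h2, h3⟩ := par ν hν χ hχ h1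
        refine ⟨ψ, ⟨h2.1, h2.2, h3⟩, ?_⟩
        rintro θ ⟨h4, h5, h6⟩
        exact hun ν hν θ h4 ψ h2.1 (rq_trans h6 (rq_symm h3)) h5
      se := fun χ hχ ψ hψ hr => ⟨seE χ hχ ψ hψ hr, seN χ hχ ψ hψ hr, seN ψ hψ χ hχ (rq_symm hr)⟩
      rN := by
        intro χ hχ ψ hψ h1 h2
        obtain ⟨ν, hν, h3⟩ := hex ψ hψ
        obtain ⟨θ, ⟨h4, h5⟩, h6⟩ := par ν hν χ hχ h1
        have h7 := (key ν hν θ h4 ψ h3).1 h5 h2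
        rw [← rip_congr h6 (fun _ _ _ => rfl : rq ℓ B W ψ ψ), h7, seE θ h4.1 χ hχ h6]
        by_cases h8 : rq ℓ B W χ ψ
        · rw [if_pos h8, if_pos (hun ν hν θ h4 ψ h3 (rq_trans h6 h8) h5)]
        · rw [if_neg h8, if_neg fun h9 => h8 (by rw [← h9]; exact rq_symm h6)]
      rM := by
        intro χ hχ ψ hψ h1 h2
        obtain ⟨ν, hν, h3⟩ := hex ψ hψ
        obtain ⟨θ, ⟨h4, h5⟩, h6⟩ := par ν hν χ hχ h1
        have h7 := (key ν hν θ h4 ψ h3).2.1 h5 h2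
        rw [← rip_congr h6 (fun _ _ _ => rfl : rq ℓ B W ψ ψ),
          ← rip_congr (fun _ _ _ => rfl : rq ℓ B W ψ ψ) h6, ← seE θ h4.1 χ hχ h6]
        exact h7
      rX := by
        intro χ hχ ψ hψ h1 h2
        obtain ⟨ν, hν, h3⟩ := hex ψ hψ
        have h4 := (key ν hν ψ h3 ψ h3).2.2 h2 h2
        rw [rip_smul ((e χ : ℂ) * e ψ) (fun g hg hg1 => by
          rw [mul_assoc, ← hX χ hχ ψ hψ h1 h2 g hg hg1, ← mul_assoc, hsq χ hχ, one_mul]) ψ, h4,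
          hsq ψ hψ, one_mul, mul_div_assoc]
      un := by
        intro χ hχ h1
        obtain ⟨ν, hν, h3⟩ := hex χ hχ
        exact un gea vxm hM hl hF hB hW (hL ν hν) h3 h1
      ux := by
        by_cases hx : ∃ ψ ∈ Ch B W, ψ ∉ N
        · obtain ⟨ψ, hψ, h2⟩ := hx
          obtain ⟨ν, hν, h3⟩ := hex ψ hψ
          obtain ⟨q, hq, hq1⟩ := ux gea gec vxm hM hl hF hB hW (hL ν hν) h3 h2
          refine ⟨q, hq, fun χ hχ h1 => ?_⟩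
          rw [← hq1]
          have h4 := hX χ hχ ψ hψ h1 h2 1 (B.C W).one_mem (by
            unfold Reg
            rw [orderOf_one]
            exact Nat.coprime_one_left ℓ)
          have h5 : χ 1 = e χ * e ψ * ψ 1 := by
            rw [mul_assoc, ← h4, ← mul_assoc, hsq χ hχ, one_mul]
          have h6 : (e χ : ℂ) / χ 1 = e ψ / ψ 1 := by
            obtain ⟨d, hd, hd1⟩ := ch_one hψ
            obtain ⟨d', hd', hd1'⟩ := ch_one hχ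
            have h7 : ψ 1 ≠ 0 := by rw [hd1]; exact Nat.cast_ne_zero.2 (by omega)
            have h8 : χ 1 ≠ 0 := by rw [hd1']; exact Nat.cast_ne_zero.2 (by omega)
            rw [div_eq_div_iff h8 h7, h5, ← mul_assoc, ← mul_assoc, mul_comm (e ψ : ℂ) (e χ : ℂ),
              mul_assoc (e χ : ℂ) (e ψ : ℂ) (e ψ : ℂ), hsq ψ hψ, mul_one]
          have h9 : ∀ a b c d x : ℂ, a * b * c / (d * x) = a / x * (b * c / d) := by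
            intro a b c d x
            rw [div_eq_mul_inv, div_eq_mul_inv, div_eq_mul_inv, mul_inv]
            ring
          rw [h9, h9, h6]
        · refine ⟨0, (SOR.Rl ℓ).zero_mem, fun χ hχ h1 => absurd ⟨χ, hχ, h1⟩ hx⟩ }

end main

/-- CYW: the structure of `b W` -/
theorem cyw (gea : GeaStmt) (gec : GecStmt) (vxm : VxmStmt) (str : StrStmt) (xir : XirStmt)
    (rpv : RpvStmt) (mat : MatStmt) : CywStmt := by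
  intro ℓ hℓ M hMm hM hl V₀ G _ _ _ _ E₀ hF B hB W hW xc hxc
  obtain ⟨e, O, h⟩ := lv_all gea gec str rpv mat hM hl hF hB hW hxc
  refine ⟨e, O, assemble gea gec vxm str xir rpv mat hM hl hF hB hW h ?_⟩
  intro hn χ hχ ψ hψ hr h1
  have h2 : ∃ ν ∈ lk (kW E₀ W), ψ ∈ Iv B W ν :=
    (vxm ℓ M hM hl V₀ G E₀ hF B hB W hW ψ hψ).2.1.2.2.2.1
  obtain ⟨ν, hν, h3⟩ := h2
  obtain ⟨_, _, -, h4⟩ := (str ℓ M hM hl V₀ G E₀ hF B hB W hW ν hν).2.2 hn ψ h3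
  exact ⟨hψ, h4 ψ h3, fun _ h5 => h1.2.2 hn (rq_trans hr h5)⟩

end Pool.Agent.PP.SE.H31W
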