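import Pool.Agent.ASE.Stmts6
import Pool.Agent.Helper15_ASO.HL12

/-!
# Squad ASE, row ETQ: the sums over the block are rational
-/

open scoped BigOperators

set_option autoImplicit false

noncomputable section

namespace Pool.Agent.PP.SE.H31Q

open Pool.Agent.Helper51_AWC Pool.Agent.Helper79_WRA Pool.Agent.PP Pool.Agent.PP.KF
open Pool.Agent.PP.K9 Pool.Agent.PP.K9.H97 Pool.Agent.PP.H75 Pool.Agent.PP.T3 Pool.Agent.PP.SO
open Pool.Agent.PP.SD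

attribute [local instance] Ideal.Quotient.field

/-- `f j` is a polynomial over the rational numbers in `ζ ^ j`, for `ℓ ∤ j` -/
def Cy (ℓ : ℕ) (ζ : ℂ) (f : ℕ → ℂ) : Prop :=
  ∃ p : Polynomial ℚ, ∀ j : ℕ, ¬ ℓ ∣ j → f j = Polynomial.aeval (ζ ^ j) p

section cy

variable {ℓ : ℕ} {ζ : ℂ}

theorem Cy.congr {f g : ℕ → ℂ} (h : Cy ℓ ζ f) (hfg : ∀ j, ¬ ℓ ∣ j → g j = f j) : Cy ℓ ζ g := by
  obtain ⟨p, hp⟩ := h
  exact ⟨p, fun j hj => (hfg j hj).trans (hp j hj)⟩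

theorem Cy.mul {f g : ℕ → ℂ} (hf : Cy ℓ ζ f) (hg : Cy ℓ ζ g) : Cy ℓ ζ fun j => f j * g j := by
  obtain ⟨p, hp⟩ := hf
  obtain ⟨q, hq⟩ := hg
  exact ⟨p * q, fun j hj => by
    show f j * g j = _
    rw [hp j hj, hq j hj, map_mul]⟩

theorem Cy.sum {ι : Type*} (s : Finset ι) (f : ι → ℕ → ℂ) (h : ∀ i ∈ s, Cy ℓ ζ (f i)) :
    Cy ℓ ζ fun j => ∑ i ∈ s, f i j := by
  classical
  choose! p hp using h
  exact ⟨∑ i ∈ s, p i, fun j hj => by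
    rw [map_sum]
    exact Finset.sum_congr rfl fun i hi => hp i hi j hj⟩

theorem cy_const (q : ℚ) : Cy ℓ ζ fun _ => (q : ℂ) :=
  ⟨Polynomial.C q, fun j _ => by rw [Polynomial.aeval_C]; rfl⟩

theorem cy_pow (i : ℕ) : Cy ℓ ζ fun j => ζ ^ (i * j) :=
  ⟨Polynomial.X ^ i, fun j _ => by
    rw [map_pow, Polynomial.aeval_X, ← pow_mul, mul_comm]⟩

/-- the sum over the powers is rational -/
theorem cy_sum (hℓ : 0 < ℓ) (hζ : ζ ^ ℓ = 1) {f : ℕ → ℂ} (h : Cy ℓ ζ f) :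
    ∃ q : ℚ, ∑ j ∈ Finset.Ico 1 ℓ, f j = (q : ℂ) := by
  obtain ⟨p, hp⟩ := h
  choose z hz using fun i => SO.H15.geom_int1 ℓ i hℓ ζ hζ
  refine ⟨∑ i ∈ Finset.range (p.natDegree + 1), p.coeff i * (z i : ℚ), ?_⟩
  have hj : ∀ j ∈ Finset.Ico 1 ℓ, f j =
      ∑ i ∈ Finset.range (p.natDegree + 1), (p.coeff i : ℂ) * ζ ^ (i * j) := by
    intro j hj
    rw [Finset.mem_Ico] at hj
    rw [hp j fun h => absurd (Nat.le_of_dvd (by omega) h) (by omega),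
      Polynomial.aeval_eq_sum_range]
    refine Finset.sum_congr rfl fun i _ => ?_
    rw [← pow_mul, mul_comm j i, Algebra.smul_def]
    rfl
  rw [Finset.sum_congr rfl hj, Finset.sum_comm]
  push_cast
  refine Finset.sum_congr rfl fun i _ => ?_
  rw [← Finset.mul_sum, hz]

/-- a constant value is rational -/
theorem cy_rat [Fact ℓ.Prime] (hζ : ζ ^ ℓ = 1) {f : ℕ → ℂ} (h : Cy ℓ ζ f) (x : ℂ)
    (hx : ∀ j, ¬ ℓ ∣ j → f j = x) : ∃ q : ℚ, x = (q : ℂ) := by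
  have hp := (Fact.out : ℓ.Prime)
  obtain ⟨q, hq⟩ := cy_sum hp.pos hζ h
  have h1 : ∑ j ∈ Finset.Ico 1 ℓ, f j = ((ℓ - 1 : ℕ) : ℂ) * x := by
    rw [Finset.sum_congr rfl (fun j hj => hx j (by
      rw [Finset.mem_Ico] at hj
      exact fun h => absurd (Nat.le_of_dvd (by omega) h) (by omega))), Finset.sum_const,
      Nat.card_Ico, nsmul_eq_mul]
  have h2 : ((ℓ - 1 : ℕ) : ℂ) ≠ 0 := by
    have := hp.two_le
    exact Nat.cast_ne_zero.2 (by omega)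
  refine ⟨q / ((ℓ - 1 : ℕ) : ℚ), ?_⟩
  rw [Rat.cast_div, Rat.cast_natCast, eq_div_iff h2, mul_comm, ← h1]
  exact hq

end cy

section blk

variable {V₀ G : Type} [CommGroup V₀] [Group G] [Finite G] {M : Ideal (integralClosure ℤ ℂ)}
  [M.IsMaximal]

theorem ch_finite (B : Bk (FF M) V₀ G) (W : Subgroup V₀) : (Ch B W).Finite := by
  classical
  have := Fintype.ofFinite (B.C W)
  have h1 : (IrrE M (fun t : B.C W => B.b W t)).Finite := irr_finite'.subset fun χ h => h.1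
  refine Set.Finite.of_injOn (f := fun (χ : G → ℂ) (t : B.C W) => χ t) (t := IrrE M
    (fun t : B.C W => B.b W t)) (fun χ hχ => hχ.2) ?_ h1
  intro χ hχ ψ hψ h
  funext g
  by_cases hg : g ∈ B.C W
  · exact congrFun h ⟨g, hg⟩
  · rw [hχ.1 g hg, hψ.1 g hg]

/-- the central character is a power -/
theorem nu_pow {ℓ : ℕ} (hl : 0 < ℓ) (hv : ∀ v : V₀, v ^ ℓ = 1) {ζ : ℂ} (hζ : IsPrimitiveRoot ζ ℓ)
    (B : Bk (FF M) V₀ G) (a : Subgroup V₀) (κ : V₀) (hκ : κ ∈ a) (ψ : G → ℂ) (hψ : ψ ∈ Ch B a) :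
    ∃ i : ℕ, ∀ j : ℕ, nu B ψ (κ ^ j) = ζ ^ (i * j) := by
  have hmem : B.i κ ∈ B.C a := by
    unfold Bk.C
    rw [Subgroup.mem_centralizer_iff]
    rintro _ ⟨v, -, rfl⟩
    rw [← map_mul, ← map_mul, mul_comm]
  have hθ : (fun t : B.C a => ψ t) ∈ Irr (B.C a) := hψ.2.1
  have hz : ∀ c : B.C a, (⟨B.i κ, hmem⟩ : B.C a) * c = c * ⟨B.i κ, hmem⟩ := by
    intro c
    apply Subtype.ext
    have h1 := c.2
    unfold Bk.C at h1
    rw [Subgroup.mem_centralizer_iff] at h1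
    exact h1 _ ⟨κ, hκ, rfl⟩
  have hzq : (⟨B.i κ, hmem⟩ : B.C a) ^ ℓ = 1 := by
    apply Subtype.ext
    rw [Subgroup.coe_pow, Subgroup.coe_one, ← map_pow, hv, map_one]
  obtain ⟨k, hk, hkj⟩ := SO.H15.cent_root hθ hz hzq
  have : NeZero ℓ := ⟨hl.ne'⟩
  obtain ⟨i, -, rfl⟩ := hζ.eq_pow_of_pow_eq_one hk
  refine ⟨i, fun j => ?_⟩
  have h1 := hkj j 1
  have h2 : ψ (B.i (κ ^ j)) = (ζ ^ i) ^ j * ψ 1 := by
    have h3 : (((⟨B.i κ, hmem⟩ : B.C a) ^ j * 1 : B.C a) : G) = B.i (κ ^ j) := by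
      rw [mul_one, Subgroup.coe_pow, map_pow]
    rw [← h3]
    exact h1
  have h5 := irr_one_ne hθ
  have h4 : ψ 1 ≠ 0 := h5
  unfold nu
  rw [h2, mul_div_assoc, div_self h4, mul_one, pow_mul]

end blk

/-- ETQ -/
theorem etq (etm : EtmStmt) (etg : EtgStmt) (hlnk : HLnkStmt) : EtqStmt := by
  intro ℓ hℓ M _ hM hl2 V₀ G _ _ _ _ E₀ hF B hB D hD a ha κ hκ
  classical
  have hp := hℓ.out
  have hl : 0 < ℓ := hp.pos
  have hζ : IsPrimitiveRoot (Complex.exp (2 * Real.pi * Complex.I / (ℓ : ℕ))) ℓ :=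
    Complex.isPrimitiveRoot_exp _ hl.ne'
  obtain ⟨ζ, hζ0⟩ : ∃ ζ : ℂ, ζ = Complex.exp (2 * Real.pi * Complex.I / (ℓ : ℕ)) := ⟨_, rfl⟩
  rw [← hζ0] at hζ
  have hS : (IrrE M B.e).Finite := by
    have := Fintype.ofFinite G
    exact irr_finite'.subset (fun θ h => h.1)
  have hi : ∀ c : V₀, (B.i c) ^ ℓ = 1 := by
    intro c
    rw [← map_pow, hF.ex, map_one]
  -- the values of `fc`
  have hval : ∀ (c : V₀) (j : ℕ), ¬ ℓ ∣ j → ∀ χ ∈ Irr G,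
      cv (fc B ⊥ (c ^ j)) χ = Nat.card G *
        gv M (Cu (B.i c)) (B.i c ^ j) (B.b (Subgroup.zpowers c)) χ /
          (Nat.card (B.C (Subgroup.zpowers c)) * χ 1) := by
    intro c j hj χ hχ
    have h1 := (hlnk ℓ M hM V₀ E₀ G B hB (c ^ j)).2.2 χ hχ
    have h2 := (hlnk ℓ M hM V₀ E₀ G B hB (c ^ j)).1
    have h3 := (hlnk ℓ M hM V₀ E₀ G B hB c).1
    rw [SO.H15.zp_eq hF.ex c hj] at h1 h2
    rw [h1, h2, h3, map_pow]
  have hfc : ∀ (d : V₀), ∀ χ ∈ IrrE M B.e, Cy ℓ ζ fun j => cv (fc B ⊥ (d ^ j)) χ := by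
    intro d χ hχ
    obtain ⟨m, hm⟩ := SO.H15.gv_exp M G (B.i d) ℓ hl (hi d) (B.b (Subgroup.zpowers d)) ζ hζ χ hχ.1
    obtain ⟨e, _, he⟩ := irr_one hχ.1
    have h1 : Cy ℓ ζ fun j => (((Nat.card G : ℚ) / (Nat.card (B.C (Subgroup.zpowers d)) * e) : ℚ) :
        ℂ) * ∑ i ∈ Finset.range ℓ, ((m i : ℚ) : ℂ) * ζ ^ (i * j) :=
      (cy_const _).mul (Cy.sum _ _ fun i _ => (cy_const _).mul (cy_pow i))
    refine h1.congr fun j hj => ?_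
    rw [hval d j hj χ hχ.1, hm j, he]
    push_cast
    ring
  -- the values of `etl`
  obtain ⟨et1, et2⟩ := etm ℓ M hM V₀ G B D a ha (hD.e1 a ha)
  have hetl : ∀ χ ∈ IrrE M B.e, Cy ℓ ζ fun j => cv (etl B D a (κ ^ j) ⊥) χ := by
    intro χ hχ
    obtain ⟨m, hm⟩ := et2 χ hχ.1
    obtain ⟨e, _, he⟩ := irr_one hχ.1
    have hfin := ch_finite B a
    have h2 : ∀ ψ ∈ hfin.toFinset, Cy ℓ ζ fun j =>
        (m ψ : ℂ) * (ψ 1 * (nu B ψ (κ ^ j) * cv (D.et a) ψ)) := by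
      intro ψ hψ
      have hψ' : ψ ∈ Ch B a := hfin.mem_toFinset.1 hψ
      obtain ⟨n, _, hn⟩ := irr_one (hψ'.2.1 : (fun t : B.C a => ψ t) ∈ Irr (B.C a))
      obtain ⟨q, hq⟩ := hD.e9 a ha ψ hψ'
      obtain ⟨i, hi'⟩ := nu_pow hl hF.ex hζ B a κ hκ ψ hψ'
      have h3 : Cy ℓ ζ fun j => (((m ψ : ℚ) * (n : ℚ) * q : ℚ) : ℂ) * ζ ^ (i * j) :=
        (cy_const _).mul (cy_pow i)
      refine h3.congr fun j _ => ?_
      have h4 : ψ 1 = n := hn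
      rw [h4, hi' j, hq]
      push_cast
      ring
    have h1 : Cy ℓ ζ fun j => (((Nat.card G : ℚ) / (Nat.card (B.C a) * e) : ℚ) : ℂ) *
        ∑ ψ ∈ hfin.toFinset, (m ψ : ℂ) * (ψ 1 * (nu B ψ (κ ^ j) * cv (D.et a) ψ)) :=
      (cy_const _).mul (Cy.sum _ _ h2)
    refine h1.congr fun j _ => ?_
    rw [hm (κ ^ j) (Subgroup.pow_mem _ hκ j), he, finsum_mem_eq_finite_toFinset_sum _ hfin]
    push_cast
    rfl
  have hg := fun j hj => etg ℓ M hM hl2 V₀ G E₀ hF B hB D hD a ha κ hκ j hj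
  constructor
  · refine cy_rat (f := fun j => LL B (etl B D a (κ ^ j) ⊥)) hζ.pow_eq_one ?_ _
      fun j hj => (hg j hj).1
    refine (Cy.sum hS.toFinset (fun χ j => cv (etl B D a (κ ^ j) ⊥) χ) fun χ hχ =>
      hetl χ (hS.mem_toFinset.1 hχ)).congr fun j _ => ?_
    unfold LL
    rw [finsum_mem_eq_finite_toFinset_sum _ hS]
  · intro d
    refine cy_rat (f := fun j => NN B (etl B D a (κ ^ j) ⊥) (fc B ⊥ (d ^ j))) hζ.pow_eq_one ?_ _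
      fun j hj => (hg j hj).2 d
    refine (Cy.sum hS.toFinset (fun χ j => cv (etl B D a (κ ^ j) ⊥) χ *
      cv (fc B ⊥ (d ^ j)) χ) fun χ hχ => (hetl χ (hS.mem_toFinset.1 hχ)).mul
        (hfc d χ (hS.mem_toFinset.1 hχ))).congr fun j _ => ?_
    unfold NN
    rw [finsum_mem_eq_finite_toFinset_sum _ hS]

end Pool.Agent.PP.SE.H31Q
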