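import Pool.Agent.ASE.Stmts8

/-!
# Squad ASE, row LMC: the numbers of modular characters for cyclic groups
-/

open scoped BigOperators

set_option autoImplicit false

noncomputable section

namespace Pool.Agent.PP.SE.H31

open Pool.Agent.Helper51_AWC Pool.Agent.Helper79_WRA Pool.Agent.PP Pool.Agent.PP.KF
open Pool.Agent.PP.K9 Pool.Agent.PP.K9.H97 Pool.Agent.PP.H75 Pool.Agent.PP.T3 Pool.Agent.PP.SO
open Pool.Agent.PP.SD

attribute [local instance] Ideal.Quotient.field

section gen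

/-- the sum of a function of the image of a surjective homomorphism -/
theorem sum_hom {X E : Type} [Group X] [Group E] [Fintype X] [Fintype E] (s : X →* E)
    (hs : Function.Surjective s) (f : E → ℕ) : ∑ x, f (s x) = Nat.card s.ker * ∑ σ, f σ := by
  classical
  rw [← Finset.sum_fiberwise Finset.univ (fun x => s x) (fun x => f (s x)), Finset.mul_sum]
  refine Finset.sum_congr rfl fun σ _ => ?_
  have h1 : ∑ x ∈ Finset.univ.filter (fun x => s x = σ), f (s x) =
      (Finset.univ.filter (fun x => s x = σ)).card * f σ := by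
    rw [← smul_eq_mul, ← Finset.sum_const]
    refine Finset.sum_congr rfl fun x hx => ?_
    rw [(Finset.mem_filter.1 hx).2]
  rw [h1]
  congr 1
  have h2 := MonoidHom.card_fiber_eq_of_mem_range s (x := σ) (y := 1) (hs σ) ⟨1, map_one s⟩
  rw [h2, ← Fintype.card_subtype, ← Nat.card_eq_fintype_card]
  rfl

variable {V₀ : Type} [CommGroup V₀]

theorem card_es [Finite V₀] (E' : Subgroup (MulAut V₀)) [Fintype E'] (v : V₀) :
    Nat.card (Es E' v) = ∑ σ : E', open Classical in (if (σ : MulAut V₀) v = v then 1 else 0) := by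
  classical
  rw [Finset.sum_ite, Finset.sum_const_zero, add_zero, Finset.sum_const, smul_eq_mul, mul_one,
    ← Fintype.card_subtype, ← Nat.card_eq_fintype_card]
  refine Nat.card_congr ⟨fun σ => ⟨⟨σ.1, σ.2.1⟩, σ.2.2⟩, fun σ => ⟨σ.1.1, σ.1.2, σ.2⟩,
    fun _ => rfl, fun _ => rfl⟩

theorem dbl [Fintype V₀] (E' : Subgroup (MulAut V₀)) [Fintype E'] :
    ∑ σ : E', ∑ τ : E', {v : V₀ | (σ : MulAut V₀) v = v ∧ (τ : MulAut V₀) v = v}.ncard =
      ∑ v : V₀, Nat.card (Es E' v) ^ 2 := by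
  classical
  have h1 : ∀ σ τ : E', {v : V₀ | (σ : MulAut V₀) v = v ∧ (τ : MulAut V₀) v = v}.ncard =
      ∑ v : V₀, (if (σ : MulAut V₀) v = v then 1 else 0) *
        (if (τ : MulAut V₀) v = v then 1 else 0) := by
    intro σ τ
    have h2 : ∀ v : V₀, (if (σ : MulAut V₀) v = v then 1 else 0) *
        (if (τ : MulAut V₀) v = v then 1 else 0) =
        if (σ : MulAut V₀) v = v ∧ (τ : MulAut V₀) v = v then 1 else 0 := by
      intro v
      by_cases a : (σ : MulAut V₀) v = v <;> by_cases b : (τ : MulAut V₀) v = v <;> simp [a, b]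
    simp only [h2]
    rw [Finset.sum_ite, Finset.sum_const_zero, add_zero, Finset.sum_const, smul_eq_mul, mul_one,
      Set.ncard_eq_toFinset_card']
    congr 1
    ext v
    simp
  simp only [h1]
  have h3 : ∀ v : V₀, Nat.card (Es E' v) ^ 2 = ∑ σ : E', ∑ τ : E',
      (if (σ : MulAut V₀) v = v then 1 else 0) * (if (τ : MulAut V₀) v = v then 1 else 0) := by
    intro v
    rw [card_es E' v, sq, Finset.sum_mul_sum]
  simp only [h3]
  exact (Finset.sum_congr rfl fun σ _ => Finset.sum_comm).trans Finset.sum_comm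

/-- the centraliser of `V` is contained in the inertial group of `γ` -/
theorem cent_le_Tg {ℓ : ℕ} {F : Type} [Field F] {G : Type} [Group G] [Finite G] {e : G → F}
    {V : Subgroup G} {γ : G → F} (h : Ld ℓ e V γ) :
    Subgroup.centralizer (V : Set G) ≤ Tg V γ := by
  intro c hc
  refine Subgroup.mem_inf.2 ⟨?_, ?_⟩
  · rw [Subgroup.mem_normalizer_iff]
    intro x
    rw [Subgroup.mem_centralizer_iff] at hc
    constructor
    · intro hx
      have h1 := hc x hx
      rw [← h1, mul_inv_cancel_right]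
      exact hx
    · intro hx
      have h1 := hc _ hx
      have h2 : x = c⁻¹ * (c * x * c⁻¹) * c := by group
      have h3 : c⁻¹ * (c * x * c⁻¹) * c = c * x * c⁻¹ := by
        rw [mul_assoc, h1, inv_mul_cancel_left]
      rw [h2, h3]
      exact hx
  · exact (cj_eq_iff _ _).1 (h.gam.ix.inv hc)

theorem memC {F G : Type} [Group G] (B : Bk F V₀ G) (W : Subgroup V₀) (x : G) :
    x ∈ B.C W ↔ ∀ v ∈ W, B.i v * x = x * B.i v := by
  unfold Bk.C
  rw [Subgroup.mem_centralizer_iff]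
  constructor
  · intro h v hv
    exact h _ ⟨v, hv, rfl⟩
  · rintro h _ ⟨v, hv, rfl⟩
    exact h v hv

/-- the map of `X` to the automorphisms, if all the elements of `X` act by automorphisms in `E'` -/
theorem exists_hom {F X : Type} [Group X] (B : Bk F V₀ X) (hi : Function.Injective B.i)
    (E' : Subgroup (MulAut V₀)) (h : ∀ x : X, ∃ σ ∈ E', ∀ v, x * B.i v * x⁻¹ = B.i (σ v)) :
    ∃ s : X →* E', (∀ x v, x * B.i v * x⁻¹ = B.i ((s x : MulAut V₀) v)) := by
  choose f hf1 hf2 using h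
  have hm : ∀ x y, f (x * y) = f x * f y := by
    intro x y
    ext v
    apply hi
    rw [← hf2, MulAut.mul_apply, ← hf2, ← hf2]
    group
  refine ⟨MonoidHom.mk' (fun x => (⟨f x, hf1 x⟩ : E')) fun x y => Subtype.ext (hm x y), ?_⟩
  intro x v
  exact hf2 x v

end gen

section cnt

variable {V₀ X : Type} [CommGroup V₀] [Finite V₀] [Group X] [Finite X] {ℓ : ℕ} [Fact ℓ.Prime]
  {M : Ideal (integralClosure ℤ ℂ)} [M.IsMaximal]

/-- the number of ordinary characters of the group `X` -/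
theorem count (f1s : F1sStmt) (chg : ChgStmt) (hM : (ℓ : integralClosure ℤ ℂ) ∈ M) (hl2 : ℓ ≠ 2)
    (ρ : MulAut V₀) (hF : Fq ℓ V₀ (Subgroup.zpowers ρ)) (B : Bk (FF M) V₀ X)
    (hB : Sb ℓ M (Subgroup.zpowers ρ) B) (hT : ∀ x : X, x ∈ TE B (Subgroup.zpowers ρ))
    (he : ∀ x, B.e x = B.b ⊤ x) :
    Nat.card (Subgroup.zpowers ρ) * (IrrE M B.e).ncard =
      ∑ᶠ v : V₀, Nat.card (Es (Subgroup.zpowers ρ) v) ^ 2 := by
  classical
  obtain ⟨E', hE'⟩ : ∃ E' : Subgroup (MulAut V₀), E' = Subgroup.zpowers ρ := ⟨_, rfl⟩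
  have hρ : ρ ∈ E' := by rw [hE']; exact Subgroup.mem_zpowers ρ
  have hgen : ∀ σ ∈ E', ∃ n : ℕ, σ = ρ ^ n := by
    intro σ hσ
    rw [hE', ← mem_powers_iff_mem_zpowers] at hσ
    obtain ⟨n, hn⟩ := hσ
    exact ⟨n, hn.symm⟩
  rw [← hE'] at hF hB hT ⊢
  have : Fintype V₀ := Fintype.ofFinite V₀
  have : Fintype X := Fintype.ofFinite X
  have : Fintype E' := Fintype.ofFinite E'
  obtain ⟨s, hs⟩ := exists_hom B hB.inj E' fun x => (hT x).2
  have hsur : Function.Surjective s := by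
    rintro ⟨σ, hσ⟩
    obtain ⟨t, -, ht⟩ := hB.sur σ hσ
    refine ⟨t, Subtype.ext ?_⟩
    ext v
    apply hB.inj
    rw [← hs, ht]
  have hker : s.ker = B.C ⊤ := by
    ext x
    rw [MonoidHom.mem_ker, memC]
    constructor
    · intro h v _
      have h1 := hs x v
      rw [h, OneMemClass.coe_one, MulAut.one_apply] at h1
      rw [mul_inv_eq_iff_eq_mul] at h1
      exact h1.symm
    · intro h
      apply Subtype.ext
      ext v
      apply hB.inj
      rw [← hs, OneMemClass.coe_one, MulAut.one_apply, ← h v (Subgroup.mem_top v),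
        mul_inv_cancel_right]
  have heb : B.e = B.b ⊤ := funext he
  have hblk : Bx (B.C ⊤) (B.b ⊤) := (hB.lb ⊤).blk
  have hcl : ∀ x y, B.b ⊤ (x * y * x⁻¹) = B.b ⊤ y := by
    intro x y
    rw [← he, ← he]
    exact hB.ld.blk.1.1 y x
  have hN : (B.C ⊤).Normal := by
    rw [← hker]
    infer_instance
  obtain ⟨t, ht⟩ := hsur ⟨ρ, hρ⟩
  have h1 := f1s ℓ M hM X (B.C ⊤) hN ⟨t, fun x => by
    obtain ⟨n, hn⟩ := hgen (s x : MulAut V₀) (s x).2
    refine ⟨n, ?_⟩
    rw [← hker, MonoidHom.mem_ker, map_mul, map_inv, map_pow, ht]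
    apply Subtype.ext
    push_cast
    rw [hn, inv_mul_cancel]⟩ (B.b ⊤) hblk.supp hcl hblk.blk.1
  have h2 : ∀ w : X × X, {χ : X → ℂ | (∀ x, x ∉ B.C ⊤ → χ x = 0) ∧
      (fun t : B.C ⊤ => χ t) ∈ IrrE M (fun t : B.C ⊤ => B.b ⊤ t) ∧
      (∀ y, χ (w.1 * y * w.1⁻¹) = χ y) ∧ ∀ y, χ (w.2 * y * w.2⁻¹) = χ y}.ncard =
      {v : V₀ | (s w.1 : MulAut V₀) v = v ∧ (s w.2 : MulAut V₀) v = v}.ncard := by
    intro w
    rw [← chg ℓ M hM hl2 V₀ X E' hF B hB (s w.1) (s w.1).2 (s w.2) (s w.2).2 w.1 (hT w.1).1 w.2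
      (hT w.2).1 (hs w.1) (hs w.2)]
    congr 1
    ext χ
    constructor
    · rintro ⟨a, b, c⟩
      exact ⟨⟨a, b⟩, c⟩
    · rintro ⟨⟨a, b⟩, c⟩
      exact ⟨a, b, c⟩
  rw [finsum_congr h2, finsum_eq_sum_of_fintype, Fintype.sum_prod_type] at h1
  have h3 : ∑ x : X, ∑ y : X, {v : V₀ | (s x : MulAut V₀) v = v ∧ (s y : MulAut V₀) v = v}.ncard =
      Nat.card s.ker * (Nat.card s.ker * ∑ v : V₀, Nat.card (Es E' v) ^ 2) := by
    rw [← dbl E']
    have h4 : ∀ x : X, ∑ y : X,
        {v : V₀ | (s x : MulAut V₀) v = v ∧ (s y : MulAut V₀) v = v}.ncard =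
        Nat.card s.ker * ∑ τ : E',
          {v : V₀ | (s x : MulAut V₀) v = v ∧ (τ : MulAut V₀) v = v}.ncard := fun x =>
      sum_hom s hsur fun τ => {v : V₀ | (s x : MulAut V₀) v = v ∧ (τ : MulAut V₀) v = v}.ncard
    simp only [h4]
    rw [← Finset.mul_sum]
    congr 1
    exact sum_hom s hsur fun σ => ∑ τ : E',
      {v : V₀ | (σ : MulAut V₀) v = v ∧ (τ : MulAut V₀) v = v}.ncard
  have h5 : Nat.card X = Nat.card s.ker * Nat.card E' := by
    have h6 := sum_hom s hsur fun _ => 1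
    simpa [Nat.card_eq_fintype_card] using h6
  rw [h3, h5, ← hker, ← heb] at h1
  rw [finsum_eq_sum_of_fintype]
  have hpos : 0 < Nat.card s.ker := Nat.card_pos
  have h7 : (Nat.card s.ker * Nat.card s.ker) * (Nat.card E' * (IrrE M B.e).ncard) =
      (Nat.card s.ker * Nat.card s.ker) * ∑ v : V₀, Nat.card (Es E' v) ^ 2 := by
    calc (Nat.card s.ker * Nat.card s.ker) * (Nat.card E' * (IrrE M B.e).ncard) =
        Nat.card s.ker * Nat.card E' * Nat.card s.ker * (IrrE M B.e).ncard := by ring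
      _ = _ := by rw [h1]; ring
  exact Nat.eq_of_mul_eq_mul_left (Nat.mul_pos hpos hpos) h7

end cnt

theorem es_le {V₀ : Type} [CommGroup V₀] (E' : Subgroup (MulAut V₀)) (v : V₀) : Es E' v ≤ E' :=
  fun _ h => h.1

theorem es_one {V₀ : Type} [CommGroup V₀] (E' : Subgroup (MulAut V₀)) :
    Es E' (1 : V₀) = E' := by
  ext σ
  exact ⟨fun h => h.1, fun h => ⟨h, map_one σ⟩⟩

/-- the last step -/
theorem last {ι : Type} [Fintype ι] (a b : ι → ℕ) (m L : ℕ) (hm : 0 < m) (i₀ : ι)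
    (h0 : a i₀ = m ∧ b i₀ = L) (h : ∀ i, (a i = m ∧ b i = L) ∨ b i = a i)
    (hs : ∑ i, a i * b i = ∑ i, a i ^ 2) : L = m := by
  have h1 : ∑ i, (a i : ℤ) * ((b i : ℤ) - a i) = 0 := by
    have h2 : ((∑ i, a i * b i : ℕ) : ℤ) = ((∑ i, a i ^ 2 : ℕ) : ℤ) := by rw [hs]
    push_cast at h2
    simp only [mul_sub, Finset.sum_sub_distrib]
    rw [h2, ← Finset.sum_sub_distrib]
    refine Finset.sum_eq_zero fun i _ => ?_
    ring
  by_contra hne
  have hm' : (0 : ℤ) < m := by exact_mod_cast hm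
  rcases lt_or_gt_of_ne hne with hlt | hgt
  · have h3 : ∑ i, (a i : ℤ) * ((b i : ℤ) - a i) < 0 := by
      have h4 : ∀ i ∈ Finset.univ, (a i : ℤ) * ((b i : ℤ) - a i) ≤ 0 := by
        intro i _
        rcases h i with ⟨h5, h6⟩ | h5
        · rw [h5, h6]
          have : (L : ℤ) < m := by exact_mod_cast hlt
          nlinarith
        · rw [h5, sub_self, mul_zero]
      refine Finset.sum_neg' h4 ⟨i₀, Finset.mem_univ _, ?_⟩
      rw [h0.1, h0.2]
      have : (L : ℤ) < m := by exact_mod_cast hlt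
      nlinarith
    exact absurd h1 h3.ne
  · have h3 : 0 < ∑ i, (a i : ℤ) * ((b i : ℤ) - a i) := by
      have h4 : ∀ i ∈ Finset.univ, 0 ≤ (a i : ℤ) * ((b i : ℤ) - a i) := by
        intro i _
        rcases h i with ⟨h5, h6⟩ | h5
        · rw [h5, h6]
          have : (m : ℤ) < L := by exact_mod_cast hgt
          nlinarith
        · rw [h5, sub_self, mul_zero]
      refine Finset.sum_pos' h4 ⟨i₀, Finset.mem_univ _, ?_⟩
      rw [h0.1, h0.2]
      have : (m : ℤ) < L := by exact_mod_cast hgt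
      nlinarith
    exact absurd h1 h3.ne'

/-- LMC -/
theorem lmc (xwd : XwdStmt) (lmb : LmbStmt) (f1s : F1sStmt) (chg : ChgStmt) : LmcStmt := by
  intro ℓ hℓ M _ hM hl2 V₀ G _ _ _ _ E₀ hF B hB
  have hp := hℓ.out
  have key : ∀ (n : ℕ) (ρ : MulAut V₀), ρ ∈ E₀ → Nat.card (Subgroup.zpowers ρ) = n →
      Lam B (Subgroup.zpowers ρ) = n := by
    intro n
    induction n using Nat.strong_induction_on with
    | _ n ih =>
    intro ρ hρ hn
    have hle : Subgroup.zpowers ρ ≤ E₀ := Subgroup.zpowers_le.2 hρ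
    have htop : (⊤ : Subgroup V₀) ≠ ⊥ := by
      intro h
      have h1 : Nat.card (⊤ : Subgroup V₀) = ℓ ^ 2 := by rw [Subgroup.card_top, hF.cd]
      rw [h, Subgroup.card_bot] at h1
      have : 1 < ℓ ^ 2 := Nat.one_lt_pow two_ne_zero hp.one_lt
      omega
    have hst : St E₀ (⊤ : Subgroup V₀) ≤ Subgroup.zpowers ρ := by
      intro σ hσ
      have : σ = 1 := by
        ext v
        exact hσ.2 v (Subgroup.mem_top v)
      rw [this]
      exact Subgroup.one_mem _
    have hC : B.C ⊤ ≤ TE B (Subgroup.zpowers ρ) := by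
      intro c hc
      have hc' := (memC B ⊤ c).1 hc
      refine ⟨cent_le_Tg hB.ld ?_, 1, Subgroup.one_mem _, fun v => ?_⟩
      · rw [Subgroup.mem_centralizer_iff]
        rintro _ ⟨v, rfl⟩
        exact hc' v (Subgroup.mem_top v)
      · rw [MulAut.one_apply, ← hc' v (Subgroup.mem_top v), mul_inv_cancel_right]
    obtain ⟨hF', B', hB', hP, he, hnor, hTE, hLam⟩ := xwd ℓ M hM hl2 V₀ G
      (TE B (Subgroup.zpowers ρ)) E₀ hF B hB ⊤ htop (Subgroup.zpowers ρ) hle hst
      (fun σ _ w _ => Subgroup.mem_top _) (TE B (Subgroup.zpowers ρ)).subtype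
      (Subgroup.subtype_injective _) (by
        rw [Subgroup.range_subtype, sup_eq_left.2 hC])
    have hTE' : ∀ x : TE B (Subgroup.zpowers ρ), x ∈ TE B' (Subgroup.zpowers ρ) :=
      fun x => (hTE x).1 x.2
    have he' : ∀ x, B'.e x = B'.b ⊤ x := by
      intro x
      rw [he, hP.b ⊤ le_rfl]
    have c1 := count f1s chg hM hl2 ρ hF' B' hB'.toSb hTE' he'
    obtain ⟨-, l2, -, l4, -⟩ := lmb ℓ M hM hl2 V₀ (TE B (Subgroup.zpowers ρ))
      (Subgroup.zpowers ρ) hF' B' hB'.toSb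
    have l2' := l2 ⊤ htop hnor
    have : Fintype V₀ := Fintype.ofFinite V₀
    classical
    have l5 : ∑ᶠ v ∈ {v : V₀ | v ≠ 1}, Nat.card (Es (Subgroup.zpowers ρ) v) *
        Lam B' (Es (Subgroup.zpowers ρ) v) = ∑ v ∈ Finset.univ.erase (1 : V₀),
        Nat.card (Es (Subgroup.zpowers ρ) v) * Lam B' (Es (Subgroup.zpowers ρ) v) := by
      have hset : ({v : V₀ | v ≠ 1} : Set V₀) = ((Finset.univ.erase (1 : V₀) : Finset V₀) :
          Set V₀) := by
        ext v
        simp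
      rw [hset, finsum_mem_coe_finset]
    rw [l5, l2'] at l4
    have l6 : Nat.card (Subgroup.zpowers ρ) * (IrrE M B'.e).ncard =
        ∑ v : V₀, Nat.card (Es (Subgroup.zpowers ρ) v) * Lam B' (Es (Subgroup.zpowers ρ) v) := by
      rw [l4, ← Finset.add_sum_erase Finset.univ _ (Finset.mem_univ (1 : V₀)), es_one]
    rw [l6, finsum_eq_sum_of_fintype] at c1
    have hm : 0 < Nat.card (Subgroup.zpowers ρ) := Nat.card_pos
    have h1 := last (fun v : V₀ => Nat.card (Es (Subgroup.zpowers ρ) v))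
      (fun v : V₀ => Lam B' (Es (Subgroup.zpowers ρ) v)) (Nat.card (Subgroup.zpowers ρ))
      (Lam B' (Subgroup.zpowers ρ)) hm 1 ⟨by rw [es_one], by rw [es_one]⟩ (fun v => by
        by_cases hv : Es (Subgroup.zpowers ρ) v = Subgroup.zpowers ρ
        · left
          simp only [hv]
          exact ⟨trivial, trivial⟩
        · right
          have hlt : Es (Subgroup.zpowers ρ) v < Subgroup.zpowers ρ :=
            lt_of_le_of_ne (es_le _ v) hv
          obtain ⟨ρ', hρ'⟩ : ∃ ρ', Es (Subgroup.zpowers ρ) v = Subgroup.zpowers ρ' := by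
            obtain ⟨g, hg⟩ := (Subgroup.isCyclic_iff_exists_zpowers_eq_top
              ((Es (Subgroup.zpowers ρ) v).subgroupOf (Subgroup.zpowers ρ))).1 inferInstance
            refine ⟨g, ?_⟩
            have h8 := congrArg (Subgroup.map (Subgroup.zpowers ρ).subtype) hg
            rw [Subgroup.subgroupOf_map_subtype, inf_eq_left.2 (es_le _ v),
              MonoidHom.map_zpowers] at h8
            exact h8.symm
          rw [hLam _ (es_le _ v), hρ']
          refine ih _ ?_ ρ' ?_ rfl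
          · rw [← hρ', ← hn]
            by_contra h8
            exact hv (Subgroup.eq_of_le_of_card_ge (es_le _ v) (not_lt.1 h8))
          · have : ρ' ∈ Es (Subgroup.zpowers ρ) v := by
              rw [hρ']
              exact Subgroup.mem_zpowers ρ'
            exact hle this.1) c1
    rw [← hLam _ le_rfl, h1, hn]
  intro ρ hρ
  exact key _ ρ hρ rfl

end Pool.Agent.PP.SE.H31
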